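import Pool.Agent.Lib.MP_1a91b9_nuT.BaseK
import Pool.Agent.Lib.MP_1a91b9_nuX.UF.Main

/-!
# MP_1a91b9_nt (phase 6): the field `ℚ(√-2)` and its data of complex multiplication

`K8 = ℚ(√-2)` inside `ℂ`, `lam8 = √-2` in `𝓞 K8`. The instance `cd8` is the class `CD` of
`MP_1a91b9_nuT` for the curve `y² = x³ - 4320 x - 96768`, that is, with `x = 36 X - 48`,
`y = 216 Y`, the curve `Y² = X³ - 4 X² + 2 X`.
-/

set_option autoImplicit false

namespace Pool.Agent.Lib.MP_1a91b9_ntW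

open NumberField Polynomial Pool.Agent.Lib.MP_1a91b9_nuT Pool.Agent.Lib.MP_1a91b9_nuX.UF

noncomputable section

/-- The field `ℚ(√-2)`. -/
def K8 : Type := ↥(KK 0 2 good8.pos)

instance fieldK8 : Field K8 := inferInstanceAs (Field ↥(KK 0 2 good8.pos))
instance numberFieldK8 : NumberField K8 := inferInstanceAs (NumberField ↥(KK 0 2 good8.pos))

/-- The embedding of `K8` in `ℂ`. -/
def emb8 : K8 →ₐ[ℚ] ℂ := embKK 0 2 good8.pos

/-- The element `√-2` of `𝓞 K8`. -/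
def lam8 : 𝓞 K8 := taK 0 2 good8.pos

theorem emb8_lam8 : emb8 (lam8 : K8) = tt 0 2 := rfl

theorem gen8 (a : 𝓞 K8) : ∃ m n : ℤ, a = (m : 𝓞 K8) + (n : 𝓞 K8) * lam8 := gen_KK good8 a

theorem quad8 : lam8 ^ 2 = ((0 : ℤ) : 𝓞 K8) * lam8 - ((2 : ℤ) : 𝓞 K8) := quad_KK good8.pos

theorem lam8_sq : lam8 ^ 2 = -2 := by
  rw [quad8]
  push_cast
  ring

instance pidK8 : IsPrincipalIdealRing (𝓞 K8) := pid_KK good8

theorem im8 : (emb8 (lam8 : K8)).im ≠ 0 := im_KK good8.pos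

/-- The lattice `ℤ[√-2]` as a period pair. -/
abbrev PP8 : PeriodPair := mkPP (emb8 (lam8 : K8)) im8

theorem exists_Om8 : ∃ Om : ℂ, Om ≠ 0 ∧ PP8.g₂ = -4 * ((-4320 : ℤ) : ℂ) * Om ^ 4 ∧
    PP8.g₃ = -4 * ((-96768 : ℤ) : ℂ) * Om ^ 6 :=
  hasOm8 (A := -4320) (B := -96768) (by norm_num) (by norm_num)

/-- The period. -/
def Om8 : ℂ := exists_Om8.choose

theorem Om8_ne : Om8 ≠ 0 := exists_Om8.choose_spec.1

theorem g2_8 : PP8.g₂ = -4 * ((-4320 : ℤ) : ℂ) * Om8 ^ 4 := exists_Om8.choose_spec.2.1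

theorem g3_8 : PP8.g₃ = -4 * ((-96768 : ℤ) : ℂ) * Om8 ^ 6 := exists_Om8.choose_spec.2.2

theorem emb8_sq : emb8 (lam8 : K8) ^ 2 = -2 := by
  rw [emb8_lam8, tt_sq good8.pos]
  norm_num

theorem emb8_ne : emb8 (lam8 : K8) ≠ 0 := by
  intro h
  have h1 := emb8_sq
  rw [h] at h1
  norm_num at h1

/-- The multiplication by `√-2` on `℘`. -/
theorem mulP8 (z : ℂ) (hz : z ∉ PP8.lattice) (hz' : emb8 (lam8 : K8) * z ∉ PP8.lattice) :
    PP8.weierstrassP z ^ 2 + 48 * Om8 ^ 2 * PP8.weierstrassP z + 2592 * Om8 ^ 4 =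
      PP8.weierstrassP (emb8 (lam8 : K8) * z) *
        (-2 * (PP8.weierstrassP z + 48 * Om8 ^ 2)) := by
  have hD : (C ((-2 : ℂ)) * (X + C (48 * Om8 ^ 2))).leadingCoeff = emb8 (lam8 : K8) ^ 2 := by
    rw [leadingCoeff_mul, leadingCoeff_C, leadingCoeff_X_add_C, mul_one, emb8_sq]
  have hN : (X ^ 2 + C (48 * Om8 ^ 2) * X + C (2592 * Om8 ^ 4) : ℂ[X]).Monic := by
    monicity!
  have hNd : (X ^ 2 + C (48 * Om8 ^ 2) * X + C (2592 * Om8 ^ 4) : ℂ[X]).natDegree = 2 := by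
    compute_degree!
  have hDd : (C ((-2 : ℂ)) * (X + C (48 * Om8 ^ 2))).natDegree = 1 := by
    rw [natDegree_C_mul (by norm_num), natDegree_X_add_C]
  have h := mulx_all (L := PP8) (t := emb8 (lam8 : K8)) (A := (-4320 : ℤ) * Om8 ^ 4)
    (B := (-96768 : ℤ) * Om8 ^ 6) emb8_ne (by rw [g2_8]; ring) (by rw [g3_8]; ring) hN hD
    (by rw [hNd, hDd]) ?_ z hz hz'
  · simpa using h
  · rw [emb8_sq]
    have e1 : derivative (X ^ 2 + C (48 * Om8 ^ 2) * X + C (2592 * Om8 ^ 4) : ℂ[X]) =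
        2 * X + C (48 * Om8 ^ 2) := by
      simp only [derivative_add, derivative_mul, derivative_X_pow, derivative_C, derivative_X]
      simp [map_ofNat (C : ℂ →+* ℂ[X]) 2]
    have e2 : derivative (C ((-2 : ℂ)) * (X + C (48 * Om8 ^ 2))) = C (-2) := by
      simp
    rw [e1, e2]
    obtain ⟨s, hs⟩ : ∃ s : ℂ[X], s = C (Om8 ^ 2) := ⟨_, rfl⟩
    have f1 : (C (48 * Om8 ^ 2) : ℂ[X]) = 48 * s := by
      rw [hs, C_mul]
      rfl
    have f2 : (C (2592 * Om8 ^ 4) : ℂ[X]) = 2592 * s ^ 2 := by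
      have : Om8 ^ 4 = (Om8 ^ 2) ^ 2 := by ring
      rw [hs, this, C_mul, C_pow]
      rfl
    have f3 : (C (((-4320 : ℤ) : ℂ) * Om8 ^ 4) : ℂ[X]) = -4320 * s ^ 2 := by
      have : Om8 ^ 4 = (Om8 ^ 2) ^ 2 := by ring
      have h5 : (C ((-4320 : ℤ) : ℂ) : ℂ[X]) = -4320 := by
        push_cast
        rw [C_neg]
        rfl
      rw [hs, this, C_mul, C_pow, h5]
    have f4 : (C (((-96768 : ℤ) : ℂ) * Om8 ^ 6) : ℂ[X]) = -96768 * s ^ 3 := by
      have : Om8 ^ 6 = (Om8 ^ 2) ^ 3 := by ring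
      have h5 : (C ((-96768 : ℤ) : ℂ) : ℂ[X]) = -96768 := by
        push_cast
        rw [C_neg]
        rfl
      rw [hs, this, C_mul, C_pow, h5]
    have f5 : (C (-2 : ℂ) : ℂ[X]) = -2 := by
      rw [C_neg]
      rfl
    rw [f1, f2, f3, f4, f5]
    ring

/-- The data of complex multiplication of the curve `y² = x³ - 4320 x - 96768`. -/
instance cd8 : CD where
  K := K8
  fieldK := fieldK8
  nfK := numberFieldK8
  pidK := pidK8
  emb := emb8
  ta := lam8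
  gen := gen8
  im := im8
  tr := 0
  nm := 2
  quad := quad8
  A := -4320
  B := -96768
  disc := by norm_num
  jint := by norm_num
  Om := Om8
  Om_ne := Om8_ne
  g2 := g2_8
  g3 := g3_8
  Nt := X ^ 2 + C 48 * X + C 2592
  Dt := C (lam8 ^ 2) * (X + C 48)
  Nt_monic := by monicity!
  Nt_deg := by
    have h : (X ^ 2 + C 48 * X + C 2592 : (𝓞 K8)[X]).natDegree = 2 := by compute_degree!
    rw [h]
    rfl
  Dt_deg := by
    have h : (X ^ 2 + C 48 * X + C 2592 : (𝓞 K8)[X]).natDegree = 2 := by compute_degree!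
    have h0 : lam8 ^ 2 ≠ 0 := by
      rw [lam8_sq]
      norm_num
    rw [h, natDegree_C_mul h0, natDegree_X_add_C]
  Dt_lead := by rw [leadingCoeff_mul, leadingCoeff_C, leadingCoeff_X_add_C, mul_one]
  Nt_lo := by
    have h : (X ^ 2 + C 48 * X + C 2592 : (𝓞 K8)[X]).natDegree = 2 := by compute_degree!
    refine ⟨C (12 * lam8) * X + C (648 * lam8), ?_⟩
    rw [h]
    have e1 : (48 : 𝓞 K8) = lam8 ^ 3 * (12 * lam8) := by
      linear_combination (-12) * (lam8 ^ 2 - 2) * lam8_sq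
    have e2 : (2592 : 𝓞 K8) = lam8 ^ 3 * (648 * lam8) := by
      linear_combination (-648) * (lam8 ^ 2 - 2) * lam8_sq
    conv_lhs => rw [e1, e2]
    simp only [C_mul]
    ring
  Dt_lo := by
    have h0 : lam8 ^ 2 ≠ 0 := by
      rw [lam8_sq]
      norm_num
    refine ⟨C (12 * lam8 ^ 3), ?_⟩
    rw [natDegree_C_mul h0, natDegree_X_add_C]
    have e1 : (48 : 𝓞 K8) = lam8 * (12 * lam8 ^ 3) := by
      linear_combination (-12) * (lam8 ^ 2 - 2) * lam8_sq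
    conv_lhs => rw [e1]
    simp only [C_mul, C_pow]
    ring
  cop := by
    have h0 : (algebraMap (𝓞 K8) K8) (lam8 ^ 2) = -2 := by
      rw [lam8_sq, map_neg, map_ofNat]
    refine ⟨C (1 / 2592), C (1 / 5184) * X, ?_⟩
    have h1 : (algebraMap (𝓞 K8) K8) 48 = 48 := map_ofNat _ 48
    have h2 : (algebraMap (𝓞 K8) K8) 2592 = 2592 := map_ofNat _ 2592
    rw [Polynomial.map_add, Polynomial.map_add, Polynomial.map_mul, Polynomial.map_mul,
      Polynomial.map_pow, Polynomial.map_add, map_X, map_C, map_C, map_C, h0, h1, h2]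
    have e1 : (C (1 / 2592) : K8[X]) * C 2592 = 1 := by
      rw [← C_mul, ← C_1]
      norm_num
    have e2 : (C (1 / 5184) : K8[X]) * C (-2) = -C (1 / 2592) := by
      rw [← C_mul, ← C_neg]
      norm_num
    linear_combination e1 + X * (X + C 48) * e2
  mulx := by
    intro z h1 h2
    have h := mulP8 z h1 h2
    have hO : Om8 ≠ 0 := Om8_ne
    have f0 : (emb8.toRingHom.comp (algebraMap (𝓞 K8) K8)) (lam8 ^ 2) = -2 := by
      rw [lam8_sq, map_neg, map_ofNat]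
    have f1 : (emb8.toRingHom.comp (algebraMap (𝓞 K8) K8)) 48 = 48 := map_ofNat _ 48
    have f2 : (emb8.toRingHom.comp (algebraMap (𝓞 K8) K8)) 2592 = 2592 := map_ofNat _ 2592
    rw [eval₂_add, eval₂_add, eval₂_mul, eval₂_mul, eval₂_pow, eval₂_add, eval₂_X, eval₂_C,
      eval₂_C, eval₂_C, f0, f1, f2]
    change (PP8.weierstrassP z / Om8 ^ 2) ^ 2 + 48 * (PP8.weierstrassP z / Om8 ^ 2) + 2592 =
      PP8.weierstrassP (emb8 (lam8 : K8) * z) / Om8 ^ 2 *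
        (-2 * (PP8.weierstrassP z / Om8 ^ 2 + 48))
    field_simp
    linear_combination h
  bad := 6 * (4 * (-4320) ^ 3 + 27 * (-96768) ^ 2) * 2 * (0 ^ 2 - 4 * 2)
  bad_ne := by norm_num
  bad_dvd := by norm_num

end

end Pool.Agent.Lib.MP_1a91b9_ntW
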